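import Pool.Agent.Helper8_BRW.Stmts

/-! BRW, module TA: tightness in analytic form. -/

set_option autoImplicit false

open MeasureTheory Set Filter

namespace BRW.H81

/-- values in `[0, 1]` on the support of `u0` -/
def U (u0 : ℤ → ℕ) (f : ℤ → ℝ) : Prop := ∀ z, u0 z ≠ 0 → 0 ≤ f z ∧ f z ≤ 1

section
variable {u0 : ℤ → ℕ} {f : ℤ → ℝ}

theorem fac_nonneg (h : U u0 f) (z : ℤ) : 0 ≤ (1 - f z) ^ (u0 z) := by
  by_cases hz : u0 z = 0
  · rw [hz]; norm_num
  · exact pow_nonneg (by linarith [(h z hz).2]) _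

theorem fac_le_one (h : U u0 f) (z : ℤ) : (1 - f z) ^ (u0 z) ≤ 1 := by
  by_cases hz : u0 z = 0
  · rw [hz]; norm_num
  · exact pow_le_one₀ (by linarith [(h z hz).2]) (by linarith [(h z hz).1])

theorem prod_nn (h : U u0 f) (F : Finset ℤ) : 0 ≤ ∏ z ∈ F, (1 - f z) ^ (u0 z) :=
  Finset.prod_nonneg fun z _ => fac_nonneg h z

theorem prod_le1 (h : U u0 f) (F : Finset ℤ) : ∏ z ∈ F, (1 - f z) ^ (u0 z) ≤ 1 :=
  Finset.prod_le_one (fun z _ => fac_nonneg h z) fun z _ => fac_le_one h z

theorem noHit_le (h : U u0 f) (F : Finset ℤ) : noHit u0 f ≤ ∏ z ∈ F, (1 - f z) ^ (u0 z) :=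
  ciInf_le ⟨0, by rintro _ ⟨F, rfl⟩; exact prod_nn h F⟩ F

theorem noHit_nn (h : U u0 f) : 0 ≤ noHit u0 f :=
  le_ciInf fun F => prod_nn h F

theorem noHit_le_sub (h : U u0 f) (z : ℤ) (hz : u0 z ≠ 0) : noHit u0 f ≤ 1 - f z := by
  refine (noHit_le h {z}).trans ?_
  rw [Finset.prod_singleton]
  exact pow_le_of_le_one (by linarith [(h z hz).2]) (by linarith [(h z hz).1]) hz

theorem prod_ge (h : U u0 f) (F : Finset ℤ) :
    1 - ∑ z ∈ F, u0 z * f z ≤ ∏ z ∈ F, (1 - f z) ^ (u0 z) := by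
  induction F using Finset.induction_on with
  | empty => simp
  | insert z F hz ih =>
    rw [Finset.sum_insert hz, Finset.prod_insert hz]
    have h1 : 1 - u0 z * f z ≤ (1 - f z) ^ (u0 z) := by
      by_cases h0 : u0 z = 0
      · rw [h0]; simp
      · have := one_add_mul_le_pow (a := - f z) (by linarith [(h z h0).2]) (u0 z)
        calc 1 - u0 z * f z = 1 + u0 z * (- f z) := by ring
          _ ≤ (1 + - f z) ^ (u0 z) := this
          _ = _ := by rw [sub_eq_add_neg]
    have h2 := prod_nn h F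
    have h3 := prod_le1 h F
    have h4 := fac_le_one h z
    nlinarith [mul_nonneg (sub_nonneg.mpr h3) (sub_nonneg.mpr h4)]

theorem prod_le_exp (h : U u0 f) (F : Finset ℤ) :
    ∏ z ∈ F, (1 - f z) ^ (u0 z) ≤ Real.exp (-∑ z ∈ F, u0 z * f z) := by
  rw [← Finset.sum_neg_distrib, Real.exp_sum]
  refine Finset.prod_le_prod (fun z _ => fac_nonneg h z) fun z _ => ?_
  by_cases h0 : u0 z = 0
  · rw [h0]; simp
  · rw [show -((u0 z : ℝ) * f z) = (u0 z : ℝ) * (- f z) by ring, Real.exp_nat_mul]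
    refine pow_le_pow_left₀ (by linarith [(h z h0).2]) ?_ _
    have := Real.add_one_le_exp (- f z)
    linarith

/-- lower bounds from sums -/
theorem noHit_ge (h : U u0 f) (s : ℝ) (hs : ∀ F : Finset ℤ, ∑ z ∈ F, u0 z * f z ≤ s) :
    1 - s ≤ noHit u0 f :=
  le_ciInf fun F => by linarith [prod_ge h F, hs F]

/-- products -/
theorem noHit_mul {g g' : ℤ → ℝ} (hg : U u0 g) (hg' : U u0 g')
    (hfg : ∀ z, u0 z ≠ 0 → f z ≤ g z ∨ f z ≤ g' z) :
    noHit u0 g * noHit u0 g' ≤ noHit u0 f := by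
  refine le_ciInf fun F => ?_
  calc noHit u0 g * noHit u0 g' ≤ (∏ z ∈ F, (1 - g z) ^ (u0 z)) * ∏ z ∈ F, (1 - g' z) ^ (u0 z) :=
        mul_le_mul (noHit_le hg F) (noHit_le hg' F) (noHit_nn hg') (prod_nn hg F)
    _ = ∏ z ∈ F, ((1 - g z) * (1 - g' z)) ^ (u0 z) := by
        rw [← Finset.prod_mul_distrib]
        exact Finset.prod_congr rfl fun z _ => by rw [mul_pow]
    _ ≤ ∏ z ∈ F, (1 - f z) ^ (u0 z) := by
        refine Finset.prod_le_prod (fun z _ => ?_) fun z _ => ?_
        · rw [mul_pow]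
          exact mul_nonneg (fac_nonneg hg z) (fac_nonneg hg' z)
        · by_cases h0 : u0 z = 0
          · rw [h0]; simp
          · have a1 := hg z h0
            have a2 := hg' z h0
            refine pow_le_pow_left₀ (mul_nonneg (by linarith) (by linarith)) ?_ _
            rcases hfg z h0 with h | h
            · nlinarith [mul_nonneg (sub_nonneg.mpr a1.2) a2.1]
            · nlinarith [mul_nonneg (sub_nonneg.mpr a2.2) a1.1]

end

/-- the geometric sum -/
theorem sum_pow {C : ℕ} {u0 : ℤ → ℕ} (hu : IC C u0) (F : Finset ℤ) :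
    ∑ z ∈ F, (u0 z : ℝ) * (2 : ℝ) ^ z ≤ 2 * C := by
  classical
  have h1 : ∑ z ∈ F, (u0 z : ℝ) * (2 : ℝ) ^ z =
      ∑ z ∈ F.filter (fun z => z ≤ 0), (u0 z : ℝ) * (2 : ℝ) ^ z := by
    rw [Finset.sum_filter]
    refine Finset.sum_congr rfl fun z _ => ?_
    split_ifs with h
    · rfl
    · rw [hu.2.2 z (by omega)]; simp
  rw [h1]
  have hinj : Set.InjOn (fun z : ℤ => (-z).toNat) (F.filter (fun z => z ≤ 0) : Finset ℤ) := by
    intro x hx y hy h
    rw [Finset.mem_coe, Finset.mem_filter] at hx hy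
    simp only at h
    omega
  calc ∑ z ∈ F.filter (fun z => z ≤ 0), (u0 z : ℝ) * (2 : ℝ) ^ z
      ≤ ∑ z ∈ F.filter (fun z => z ≤ 0), (C : ℝ) * (1 / 2 : ℝ) ^ ((-z).toNat) := by
        refine Finset.sum_le_sum fun z hz => ?_
        rw [Finset.mem_filter] at hz
        refine mul_le_mul (by exact_mod_cast hu.2.1 z) (le_of_eq ?_) (by positivity) (by positivity)
        rw [← zpow_natCast, Int.toNat_of_nonneg (by omega), one_div, inv_zpow, ← zpow_neg, neg_neg]
    _ = C * ∑ n ∈ (F.filter (fun z => z ≤ 0)).image (fun z : ℤ => (-z).toNat), (1 / 2 : ℝ) ^ n := by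
        rw [Finset.mul_sum, Finset.sum_image hinj]
    _ ≤ C * 2 := by
        refine mul_le_mul_of_nonneg_left ?_ (by positivity)
        exact sum_le_hasSum _ (fun n _ => by positivity) hasSum_geometric_two
    _ = 2 * C := by ring

theorem w_U {ξ : ℤ → ℝ} {y : ℤ} {w : ℝ → ℤ → ℝ} {A : Set ℤ} {f : ℤ → ℝ} (hw : IsSol ξ A f w)
    (u0 : ℤ → ℕ) (t : ℝ) (ht : 0 ≤ t) : U u0 (w t) :=
  fun z _ => ⟨hw.nonneg t z ht, hw.le_one t z ht⟩

/-- the crude lower bound of `noHit` -/
theorem crude (hcru : CRUStmt) {a b : ℝ} {ξ : ℤ → ℝ} (hE : Env a b ξ) {C : ℕ} {u0 : ℤ → ℕ}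
    (hu : IC C u0) {y : ℤ} {w : ℝ → ℤ → ℝ} (hw : IsW ξ y w) (t : ℝ) (ht : 0 ≤ t) :
    1 - 2 * C * Real.exp ((b + 1) * t) * (2 : ℝ) ^ (-y) ≤ noHit u0 (w t) := by
  refine noHit_ge (w_U (y := y) hw u0 t ht) _ fun F => ?_
  calc ∑ z ∈ F, (u0 z : ℝ) * w t z
      ≤ ∑ z ∈ F, (u0 z : ℝ) * (Real.exp ((b + 1) * t) * (2 : ℝ) ^ (z - y)) := by
        refine Finset.sum_le_sum fun z _ => mul_le_mul_of_nonneg_left ?_ (by positivity)
        have := (hcru a b ξ hE y 2 (by norm_num)).1 w hw t z ht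
        rwa [show b + 2 / 2 = b + 1 by ring] at this
    _ = (Real.exp ((b + 1) * t) * (2 : ℝ) ^ (-y)) * ∑ z ∈ F, (u0 z : ℝ) * (2 : ℝ) ^ z := by
        rw [Finset.mul_sum]
        refine Finset.sum_congr rfl fun z _ => ?_
        rw [sub_eq_add_neg, zpow_add₀ (by norm_num)]
        ring
    _ ≤ (Real.exp ((b + 1) * t) * (2 : ℝ) ^ (-y)) * (2 * C) :=
        mul_le_mul_of_nonneg_left (sum_pow hu F) (by positivity)
    _ = _ := by ring

theorem ta (hamp : AmpStmt) (hc3 : C3Stmt) (hg2 : G2Stmt) (hcru : CRUStmt) (hcmp : CMPStmt)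
    (hexn : EXNStmt) (htls : TLSStmt) : TAStmt := by
  intro a b ε C ha hb hε hε1
  set n' : ℝ := Real.log (1 / ε) / (ε / 2) with hn'
  have hlog : 0 < Real.log (1 / ε) := Real.log_pos (by rw [one_div]; exact (one_lt_inv₀ hε).mpr hε1)
  have hn'0 : 0 < n' := div_pos hlog (by linarith)
  obtain ⟨L, p0, hL, hp0, hp1, hAMP⟩ := hamp a b ε n' ha hε hn'0
  obtain ⟨ρ, hρ1, hρ2, hρ⟩ := hc3 b hb
  obtain ⟨K0, hK0⟩ := hρ L hL.le
  obtain ⟨s, hs, hG2⟩ := hg2 a b 1 ε ha one_pos hε
  -- constants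
  obtain ⟨K1, hK1⟩ : ∃ K1 : ℕ, Real.exp s * (1 / 2 : ℝ) ^ K1 ≤ ε := by
    have : Tendsto (fun n : ℕ => Real.exp s * (1 / 2 : ℝ) ^ n) atTop (nhds (Real.exp s * 0)) :=
      (tendsto_pow_atTop_nhds_zero_of_lt_one (by norm_num) (by norm_num)).const_mul _
    rw [mul_zero] at this
    exact ((this.eventually (gt_mem_nhds hε)).exists).imp fun n hn => hn.le
  obtain ⟨K', hK', hK'0⟩ : ∃ K' : ℕ,
      (2 * C * Real.exp ((b + 1) * (s + L)) * 2 ^ K1) * (1 / 2 : ℝ) ^ K' ≤ ε / 2 ∧ K0 ≤ K' := by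
    have : Tendsto (fun n : ℕ => (2 * C * Real.exp ((b + 1) * (s + L)) * 2 ^ K1) * (1 / 2 : ℝ) ^ n)
        atTop (nhds ((2 * C * Real.exp ((b + 1) * (s + L)) * 2 ^ K1) * 0)) :=
      (tendsto_pow_atTop_nhds_zero_of_lt_one (by norm_num) (by norm_num)).const_mul _
    rw [mul_zero] at this
    exact (((this.eventually (gt_mem_nhds (half_pos hε))).and (eventually_ge_atTop K0)).exists).imp
      fun n hn => ⟨hn.1.le, hn.2⟩
  have hC0 : (0 : ℝ) ≤ C := by positivity
  refine ⟨K' + 1, by positivity, ?_⟩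
  intro ξ hE u0 hu w hw t ht
  have hUw : ∀ y, U u0 (w y t) := fun y => w_U (y := y) (hw y) u0 t ht
  -- a crossing
  obtain ⟨A, hA, hA1⟩ : ∃ A : ℤ, noHit u0 (w A t) ≤ ε ∧ ε < noHit u0 (w (A + 1) t) := by
    obtain ⟨y1, _, hy1, _⟩ := htls a b C ξ hE u0 hu w hw t ε ht hε
    by_contra hcon
    push Not at hcon
    have hall : ∀ k : ℕ, noHit u0 (w (y1 + k) t) ≤ ε := by
      intro k
      induction k with
      | zero => simpa using hy1
      | succ k ih =>
        have := hcon _ ih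
        rw [show y1 + ((k + 1 : ℕ) : ℤ) = y1 + k + 1 by push_cast; ring]
        exact this
    have hlim : Tendsto (fun k : ℕ => 1 - 2 * C * Real.exp ((b + 1) * t) *
        (2 : ℝ) ^ (-(y1 + k))) atTop (nhds (1 - 2 * C * Real.exp ((b + 1) * t) * (2 : ℝ) ^ (-y1) * 0)) := by
      have h1 : Tendsto (fun k : ℕ => (1 / 2 : ℝ) ^ k) atTop (nhds 0) :=
        tendsto_pow_atTop_nhds_zero_of_lt_one (by norm_num) (by norm_num)
      have h2 := (h1.const_mul (2 * C * Real.exp ((b + 1) * t) * (2 : ℝ) ^ (-y1))).const_sub 1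
      refine h2.congr fun k => ?_
      rw [neg_add, zpow_add₀ (by norm_num), zpow_neg _ (k : ℤ), zpow_natCast, one_div, inv_pow]
      ring
    rw [mul_zero, sub_zero] at hlim
    have h3 : (1 : ℝ) ≤ ε := le_of_tendsto hlim (Filter.Eventually.of_forall fun k =>
      (crude hcru hE hu (hw (y1 + k)) t ht).trans (hall k))
    linarith
  refine ⟨A, hA, ?_⟩
  have hyK : A + ((K' : ℤ) + 1) = (A + 1) + K' := by ring
  rw [hyK]
  set y : ℤ := A + 1 with hy
  clear_value y
  have hz0 : u0 0 ≠ 0 := by have := hu.1; omega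
  have h2K : (2 : ℝ) ^ (-(y + K')) = (2 : ℝ) ^ (-y) * (1 / 2 : ℝ) ^ K' := by
    rw [neg_add, zpow_add₀ (by norm_num), zpow_neg _ (K' : ℤ), zpow_natCast, one_div, inv_pow]
  have hM1 : ∀ t' : ℝ, t' ≤ s + L → ∀ k : ℝ, 0 ≤ k → k ≤ 2 ^ K1 →
      2 * C * Real.exp ((b + 1) * t') * (k * (1 / 2 : ℝ) ^ K') ≤ ε / 2 := by
    intro t' ht' k hk0 hk
    refine le_trans ?_ hK'
    have h1 : Real.exp ((b + 1) * t') ≤ Real.exp ((b + 1) * (s + L)) :=
      Real.exp_le_exp.mpr (mul_le_mul_of_nonneg_left ht' (by linarith))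
    calc 2 * C * Real.exp ((b + 1) * t') * (k * (1 / 2 : ℝ) ^ K')
        = (2 * C) * (Real.exp ((b + 1) * t') * k) * (1 / 2 : ℝ) ^ K' := by ring
      _ ≤ (2 * C) * (Real.exp ((b + 1) * (s + L)) * 2 ^ K1) * (1 / 2 : ℝ) ^ K' := by
          refine mul_le_mul_of_nonneg_right (mul_le_mul_of_nonneg_left ?_ (by positivity))
            (by positivity)
          exact mul_le_mul h1 hk hk0 (by positivity)
      _ = _ := by ring
  rcases le_or_gt y 0 with hy0 | hy0
  · -- `y ≤ 0`
    have hw0 : w y 0 0 = 1 := by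
      rw [(hw y).init 0]
      exact if_pos hy0
    have hts : t < s := by
      by_contra hcon
      rw [not_lt] at hcon
      have h1 := hG2 ξ hE (ind y) (w y) (hw y) 0 0 t le_rfl hcon (by rw [hw0])
      rw [zero_add] at h1
      have h2 := noHit_le_sub (hUw y) 0 hz0
      linarith
    have hyK1 : (2 : ℝ) ^ (-y) ≤ 2 ^ K1 := by
      have h1 := (hcru a b ξ hE y 2 (by norm_num)).2.2.2 (w y) (hw y) t 0 ht
      have h2 := noHit_le_sub (hUw y) 0 hz0
      rw [show (2 : ℝ) / 2 * t = t by ring, sub_zero] at h1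
      have h3 : Real.exp t ≤ Real.exp s := Real.exp_le_exp.mpr hts.le
      have h4 : ε < Real.exp s * (2 : ℝ) ^ y := by
        have h5 : Real.exp t * (2 : ℝ) ^ y ≤ Real.exp s * (2 : ℝ) ^ y :=
          mul_le_mul_of_nonneg_right h3 (by positivity)
        linarith
      have h6 : (1 / 2 : ℝ) ^ K1 < (2 : ℝ) ^ y := by
        have := hK1.trans_lt h4
        exact lt_of_mul_lt_mul_left this (Real.exp_pos s).le
      rw [one_div, inv_pow] at h6
      rw [zpow_neg]
      exact (inv_lt_of_inv_lt₀ (by positivity) h6).le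
    have h1 := crude hcru hE hu (hw (y + K')) t ht
    rw [h2K] at h1
    have h2 := hM1 t (by linarith) _ (by positivity) hyK1
    linarith
  · have hyle : (2 : ℝ) ^ (-y) ≤ 1 := by
      rw [zpow_neg]
      exact inv_le_one_of_one_le₀ (one_le_zpow₀ (by norm_num) hy0.le)
    have hone : (1 : ℝ) ≤ 2 ^ K1 := one_le_pow₀ (by norm_num)
    rcases lt_or_ge t L with htL | htL
    · have h1 := crude hcru hE hu (hw (y + K')) t ht
      rw [h2K] at h1
      have h2 := hM1 t (by linarith) _ (by positivity) (hyle.trans hone)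
      linarith
    · -- the main case
      have hind : ∀ y x : ℤ, 0 ≤ ind y x ∧ ind y x ≤ 1 := by
        intro y x
        unfold ind
        split_ifs <;> norm_num
      obtain ⟨v, hv, _⟩ := hexn a b ξ hE (Iio y) (ind y) (hind y)
      obtain ⟨v', hv', _⟩ := hexn a b ξ hE (Iio (y + K')) (ind (y + K')) (hind (y + K'))
      have htL' : 0 ≤ t - L := by linarith
      have hUv : U u0 (v (t - L)) := fun z _ => ⟨hv.nonneg _ z htL', hv.le_one _ z htL'⟩
      have hamp2 : ∀ z, u0 z ≠ 0 → n' * v (t - L) z ≤ w y t z := by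
        intro z hz
        obtain ⟨h1, h2⟩ := hAMP ξ hE y v (w y) hv (hw y) t z htL
        refine h2 ?_
        by_contra hcon
        rw [not_le] at hcon
        have h3 := h1 hcon
        have h4 := noHit_le_sub (hUw y) z hz
        linarith
      have hnv : 1 - ε / 2 ≤ noHit u0 (v (t - L)) := by
        refine noHit_ge hUv _ fun F => ?_
        by_contra hcon
        rw [not_le] at hcon
        have h1 := (noHit_le (hUw y) F).trans (prod_le_exp (hUw y) F)
        have h2 : n' * ∑ z ∈ F, (u0 z : ℝ) * v (t - L) z ≤ ∑ z ∈ F, (u0 z : ℝ) * w y t z := by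
          rw [Finset.mul_sum]
          refine Finset.sum_le_sum fun z _ => ?_
          by_cases hz : u0 z = 0
          · rw [hz]; simp
          · calc n' * ((u0 z : ℝ) * v (t - L) z) = (u0 z : ℝ) * (n' * v (t - L) z) := by ring
              _ ≤ (u0 z : ℝ) * w y t z := mul_le_mul_of_nonneg_left (hamp2 z hz) (by positivity)
        have h3 : n' * (ε / 2) < n' * ∑ z ∈ F, (u0 z : ℝ) * v (t - L) z :=
          mul_lt_mul_of_pos_left hcon hn'0
        have h4 : n' * (ε / 2) = Real.log (1 / ε) := by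
          rw [hn', div_mul_cancel₀]
          exact (half_pos hε).ne'
        have h5 : Real.exp (-∑ z ∈ F, (u0 z : ℝ) * w y t z) ≤ Real.exp (Real.log ε) := by
          refine Real.exp_le_exp.mpr ?_
          rw [one_div, Real.log_inv] at h4
          linarith
        rw [Real.exp_log hε] at h5
        linarith
      set g' : ℤ → ℝ := fun z => (2 : ℝ) ^ (z - (y + K')) with hg'
      have hzle : ∀ z, u0 z ≠ 0 → z ≤ 0 := by
        intro z hz
        by_contra hcon
        exact hz (hu.2.2 z (by omega))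
      have hUg : U u0 g' := by
        intro z hz
        have := hzle z hz
        refine ⟨by positivity, ?_⟩
        refine zpow_le_one_of_nonpos₀ (by norm_num) ?_
        omega
      have hng : 1 - ε / 2 ≤ noHit u0 g' := by
        have h1 : ∀ F : Finset ℤ, ∑ z ∈ F, (u0 z : ℝ) * g' z ≤ 2 * C * (2 : ℝ) ^ (-(y + K')) := by
          intro F
          calc ∑ z ∈ F, (u0 z : ℝ) * g' z = (2 : ℝ) ^ (-(y + K')) * ∑ z ∈ F, (u0 z : ℝ) * (2 : ℝ) ^ z := by
                rw [Finset.mul_sum]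
                refine Finset.sum_congr rfl fun z _ => ?_
                rw [hg']
                simp only
                rw [sub_eq_add_neg z, zpow_add₀ (by norm_num)]
                ring
            _ ≤ (2 : ℝ) ^ (-(y + K')) * (2 * C) :=
                mul_le_mul_of_nonneg_left (sum_pow hu F) (by positivity)
            _ = _ := by ring
        have h2 := noHit_ge hUg _ h1
        have h3 := hM1 0 (by linarith) _ (by positivity) (hyle.trans hone)
        rw [mul_zero, Real.exp_zero, mul_one, ← h2K] at h3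
        linarith
      have hmul : noHit u0 (v (t - L)) * noHit u0 g' ≤ noHit u0 (w (y + K') t) := by
        refine noHit_mul hUv hUg fun z hz => ?_
        have hz0 := hzle z hz
        rcases le_or_gt (((y + K' - z : ℤ) : ℝ)) (ρ * t) with hD | hD
        · left
          have h1 := (hcmp a b ξ hE (y + K') v' hv').1 (w (y + K')) (hw (y + K')) t z ht
          have h2 := (hK0 K' hK'0 a ξ hE y v' v hv' hv t z ht (by omega) hD).2
          exact h1.trans h2
        · right
          have h1 := (hcru a b ξ hE (y + K') 4 (by norm_num)).1 (w (y + K')) (hw (y + K')) t z ht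
          refine h1.trans ?_
          have h4 : (4 : ℝ) ^ (z - (y + K')) = (2 : ℝ) ^ (z - (y + K')) * (2 : ℝ) ^ (z - (y + K')) := by
            rw [← mul_zpow]; norm_num
          rw [h4, ← mul_assoc]
          have h5 : Real.exp ((b + 4 / 2) * t) * (2 : ℝ) ^ (z - (y + K')) ≤ 1 := by
            have h6 : Real.exp ((b + 4 / 2) * t) ≤ (2 : ℝ) ^ (y + K' - z) := by
              rw [← Real.rpow_intCast, Real.rpow_def_of_pos (by norm_num)]
              refine Real.exp_le_exp.mpr ?_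
              have hl : 0 < Real.log 2 := Real.log_pos (by norm_num)
              have h7 : Real.log 2 * (ρ * t) ≤ Real.log 2 * ((y + K' - z : ℤ) : ℝ) :=
                mul_le_mul_of_nonneg_left hD.le hl.le
              have h8 : 2 * (b + 1) * t ≤ ρ * Real.log 2 * t := mul_le_mul_of_nonneg_right hρ2 ht
              have h9 : 0 ≤ b * t := mul_nonneg hb.le ht
              nlinarith
            have h10 : (2 : ℝ) ^ (z - (y + K')) = ((2 : ℝ) ^ (y + K' - z))⁻¹ := by
              rw [← zpow_neg]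
              congr 1
              ring
            rw [h10]
            exact mul_inv_le_one_of_le₀ h6 (by positivity)
          exact mul_le_of_le_one_left (by positivity) h5
      have h5 : (1 - ε / 2) * (1 - ε / 2) ≤ noHit u0 (v (t - L)) * noHit u0 g' :=
        mul_le_mul hnv hng (by linarith) (noHit_nn hUv)
      nlinarith

end BRW.H81
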